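import Pool.Agent.MP_d68894_co.H53.Link

set_option autoImplicit false
open Matrix

namespace Pool.Agent.MP_d68894_co.H74

open Pool.Agent.MP_d68894_co.H53

/-- The counterexample of `H53.counter`, with the boundedness of the polyhedron recorded. -/
theorem counter : ∃ (d : ℕ) (B : Matrix (Fin d) (Fin d) ℝ) (c : Fin d → ℝ), 0 < d ∧ IsUnit B ∧
    (∀ a, 0 < (B⁻¹ *ᵥ c) a) ∧ (∀ a, 0 < c a) ∧
    (∃ R : ℝ, ∀ y : Fin d → ℝ, (∀ a, 0 ≤ y a) → (∀ a, B a ⬝ᵥ y ≤ c a) → ∑ a, y a ≤ R) ∧
    ∀ k ≤ d, ∀ (y g : ℕ → Fin d → ℝ) (α : ℕ → ℝ), y 0 = 0 → B *ᵥ y k = c →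
      (∀ t ≤ k, ∀ i, rowA B i ⬝ᵥ y t ≤ rhs c i) →
      (∀ t < k, IsCirc (rowA B) (g t) ∧ y (t + 1) = y t + α t • g t ∧
        ∀ β, α t < β → ∃ i, rhs c i < rowA B i ⬝ᵥ (y t + β • g t)) → False := by
  classical
  obtain ⟨P⟩ := exists_par
  obtain ⟨d, ⟨eJ⟩⟩ := Finite.exists_equiv_fin JJ
  have hd : 44 ≤ d := by
    have := Fintype.card_le_of_injective (fun k : KK => eJ (Sum.inl k))
      (fun a b h => Sum.inl_injective (eJ.injective h))
    simp only [Fintype.card_prod, Fintype.card_fin, Fintype.card_bool] at this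
    omega
  let col : Option KK → Fin d → ℝ := fun o a => P.Lf (eJ.symm a) (Pi.single o 1)
  have hli : LinearIndependent ℝ col := by
    rw [Fintype.linearIndependent_iff]
    intro g hg
    have : g = 0 := Lf_inj P g fun j => by
      have := congrFun hg (eJ j)
      rw [Lf_sum]
      simpa [col, Finset.sum_apply] using this
    exact congrFun this
  obtain ⟨ι, B, hι, hB, hB1, hB2⟩ := ext_mat col hli (1 / 50) (by norm_num)
  let emb : KK ↪ Fin d := ⟨fun k => ι (some k), fun a b h => Option.some.inj (hι h)⟩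
  let Dm : Finset (Fin d) := (Finset.univ.map emb)ᶜ
  have hDm : ∀ a, a ∈ Dm ↔ ∀ k, a ≠ emb k := by
    intro a
    simp only [Dm, Finset.mem_compl, Finset.mem_map, Finset.mem_univ, true_and, not_exists]
    exact forall_congr' fun k => ne_comm
  have split : ∀ F : Fin d → ℝ, ∑ a, F a = ∑ a ∈ Dm, F a + ∑ k, F (emb k) := by
    intro F
    rw [← Finset.sum_compl_add_sum (Finset.univ.map emb), Finset.sum_map]
  let π : (Fin d → ℝ) → Pt := fun y o => o.elim (∑ a ∈ Dm, y a) fun k => y (emb k)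
  have hπ : ∀ (y : Fin d → ℝ) (j : JJ), B (eJ j) ⬝ᵥ y - P.Lf j (π y) =
      ∑ a ∈ Dm, (B (eJ j) a - col none (eJ j)) * y a := by
    intro y j
    rw [Lf_sum, Fintype.sum_option, dotProduct, split]
    have e1 : ∑ k, B (eJ j) (emb k) * y (emb k) =
        ∑ k, π y (some k) * P.Lf j (Pi.single (some k) 1) :=
      Finset.sum_congr rfl fun k _ => by
        have := hB1 (eJ j) (some k)
        simp only [col, Equiv.symm_apply_apply] at this
        change B (eJ j) (ι (some k)) * y (emb k) = y (emb k) * _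
        rw [this, mul_comm]
    rw [e1]
    simp only [sub_mul, Finset.sum_sub_distrib, ← Finset.mul_sum, col, Equiv.symm_apply_apply, π,
      Option.elim]
    ring
  have hπ' : ∀ (y : Fin d → ℝ), (∀ a, 0 ≤ y a) → ∀ j : JJ,
      |B (eJ j) ⬝ᵥ y - P.Lf j (π y)| ≤ π y none / 50 := by
    intro y hy j
    rw [hπ]
    refine (Finset.abs_sum_le_sum_abs _ _).trans ?_
    change _ ≤ (∑ a ∈ Dm, y a) / 50
    rw [Finset.sum_div]
    refine Finset.sum_le_sum fun a ha => ?_
    rw [abs_mul, abs_of_nonneg (hy a)]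
    have := hB2 (eJ j) a ((hDm a).1 ha)
    nlinarith [hy a]
  have hDne : (0:ℝ) < Dm.card := by
    have : ι none ∈ Dm := (hDm _).2 fun k h => by simpa using hι h
    exact_mod_cast Finset.card_pos.2 ⟨_, this⟩
  let v1 : Fin d → ℝ := fun a => if a ∈ Dm then 1 / Dm.card else 1 / 2
  have hv1 : ∀ a, 0 < v1 a := fun a => by simp only [v1]; split_ifs <;> positivity
  have hv1' : π v1 = v0 := by
    funext o
    rcases o with _ | k
    · change ∑ a ∈ Dm, v1 a = 1
      rw [Finset.sum_congr rfl fun a ha => if_pos ha, Finset.sum_const, nsmul_eq_mul]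
      field_simp
    · exact if_neg fun h => (hDm _).1 h k rfl
  have hBd : IsUnit B.det := (Matrix.isUnit_iff_isUnit_det B).1 hB
  obtain ⟨c, ⟨hc1, hc2⟩, hc⟩ := generic (by omega) B
    {c | (∀ a, 0 < (B⁻¹ *ᵥ c) a) ∧ ∀ j, |c (eJ j) - P.Lf j v0| < 2 / 50}
    (by
      refine IsOpen.inter (s := {c | ∀ a, 0 < (B⁻¹ *ᵥ c) a})
        (t := {c | ∀ j, |c (eJ j) - P.Lf j v0| < 2 / 50}) ?_ ?_
      · rw [Set.ofPred_forall]
        exact isOpen_iInter_of_finite fun a => isOpen_lt continuous_const (by fun_prop)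
      · rw [Set.ofPred_forall]
        exact isOpen_iInter_of_finite fun a => isOpen_lt (by fun_prop) continuous_const)
    ⟨B *ᵥ v1, by
      constructor
      · rw [mulVec_mulVec, Matrix.nonsing_inv_mul _ hBd, one_mulVec]; exact hv1
      · intro j
        have := hπ' v1 (fun a => (hv1 a).le) j
        rw [hv1'] at this
        exact this.trans_lt (by norm_num [v0])⟩
  refine ⟨d, B, c, by omega, hB, hc1, fun a => ?_,
    ⟨c (eJ (Sum.inl (0, true))) + c (eJ (Sum.inl (0, false))), fun y hy hB' => ?_⟩,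
    fun k hk y g α h0 hl hf hs => ?_⟩
  · have h1 := abs_lt.1 (hc2 (eJ.symm a))
    have h2 := c0_ge P (eJ.symm a)
    rw [Equiv.apply_symm_apply] at h1
    linarith
  · have h1 := abs_le.1 (hπ' y hy (Sum.inl (0, true)))
    have h2 := abs_le.1 (hπ' y hy (Sum.inl (0, false)))
    have h3 := hB' (eJ (Sum.inl (0, true)))
    have h4 := hB' (eJ (Sum.inl (0, false)))
    have h5 : tot (π y) = ∑ a, y a := by
      rw [split, tot, Fintype.sum_prod_type]
      simp only [mass, Fintype.sum_bool]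
      rfl
    have h6 : π y none ≤ ∑ a, y a :=
      Finset.sum_le_sum_of_subset_of_nonneg (Finset.subset_univ _) fun a _ _ => hy a
    have h7 : 0 ≤ ∑ a, y a := Finset.sum_nonneg fun a _ => hy a
    have h8 := P.S_big
    have h9 := P.N_ge 0 (by omega)
    simp only [Par.Lf, Par.lin, sg, h5] at h1 h2
    simp only [if_true, Bool.false_eq_true, if_false] at h1 h2
    nlinarith
  obtain ⟨rfl, ρ, r1, r2, r3⟩ := hc k hk y g α h0 hl hf hs
  have ynn : ∀ t ≤ k, ∀ a, 0 ≤ y t a := fun t ht a => by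
    have := hf t ht (Sum.inl a)
    rw [rowA_inl] at this
    simpa [rhs] using this
  refine Walk.absurd_walk (P := P) ⟨fun t => π (y t), fun t j => c (eJ j) - B (eJ j) ⬝ᵥ y t,
    fun t => Sum.elim eJ.symm eJ.symm (ρ t), ?_, ?_, ?_, ?_, ?_⟩
  · funext o
    cases o <;> simp [π, h0]
  · intro t ht
    refine OK_of P _ _ ?_ (fun j => sub_nonneg.2 (hf t (by omega) (Sum.inr (eJ j)))) fun j => ?_
    · rintro (_ | k')
      · exact Finset.sum_nonneg fun a _ => ynn t (by omega) a
      · exact ynn t (by omega) _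
    · have h1 := abs_le.1 (hπ' (y t) (ynn t (by omega)) j)
      have h2 := abs_lt.1 (hc2 j)
      rw [Lf_v0] at h2
      simp only [Par.Lf] at h1
      simp only [Par.hh, Par.ell]
      exact abs_le.2 ⟨by linarith, by linarith⟩
  · intro t ht h hne hn h1 h2
    obtain ⟨⟨-, hcirc⟩, hy, -⟩ := hs t (by omega)
    let h' : Fin k → ℝ := Function.extend emb (fun k' => h (some k')) 0
    have e1 : ∀ k', h' (emb k') = h (some k') := fun k' => emb.injective.extend_apply _ _ k'
    have e2 : ∀ a ∈ Dm, h' a = 0 := fun a ha =>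
      Function.extend_apply' _ _ _ fun ⟨k', hk'⟩ => (hDm a).1 ha k' hk'.symm
    have e3 : π h' = h := by
      funext o
      rcases o with _ | k'
      · rw [hn]; exact Finset.sum_eq_zero e2
      · exact e1 k'
    have e4 : ∀ j, B (eJ j) ⬝ᵥ h' = P.Lf j h := fun j => by
      have := hπ h' j
      rw [e3, Finset.sum_eq_zero fun a ha => by rw [e2 a ha, mul_zero]] at this
      linarith
    have e5 : ∀ a, g t a = 0 → y (t + 1) a = y t a := fun a ha => by simp [hy, ha]
    have e6 : ∀ a, B a ⬝ᵥ g t = 0 → B a ⬝ᵥ y (t + 1) = B a ⬝ᵥ y t := fun a ha => by simp [hy, ha]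
    have key := hcirc h' (fun e => hne (by rw [← e3, e]; funext o; cases o <;> simp [π])) (by
      rintro (a | a) ha
      · rw [rowA_inl, neg_eq_zero] at ha ⊢
        by_cases hD : a ∈ Dm
        · exact e2 a hD
        · rw [hDm] at hD
          push Not at hD
          obtain ⟨k', rfl⟩ := hD
          rw [e1]
          exact h1 k' (e5 _ ha)
      · obtain ⟨j, rfl⟩ := eJ.surjective a
        change B (eJ j) ⬝ᵥ h' = 0
        rw [e4]
        exact h2 j (by simp only [e6 _ ha]))
    have key1 : ∀ a, h' a = 0 → y (t + 1) a = y t a := fun a ha => e5 a (by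
      have := key (Sum.inl a) (by rw [rowA_inl, ha, neg_zero])
      rwa [rowA_inl, neg_eq_zero] at this)
    refine ⟨?_, fun j hj => ?_⟩
    · rintro (_ | k') hk'
      · exact Finset.sum_congr rfl fun a ha => key1 a (e2 a ha)
      · exact key1 _ (by rw [e1, hk'])
    · have := key (Sum.inr (eJ j)) (by rw [← e4] at hj; exact hj)
      simp only [e6 _ this]
  · intro s hs t ht h
    obtain ⟨a, ha⟩ := r1 s (by omega)
    obtain ⟨b, hb⟩ := r1 t (by omega)
    refine r2 s (by omega) t (by omega) ?_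
    simp only [ha, hb, Sum.elim_inr] at h ⊢
    rw [eJ.symm.injective h]
  · intro s t hst ht
    obtain ⟨a, ha⟩ := r1 s (by omega)
    have := r3 s t hst (by omega)
    simp only [ha, Sum.elim_inr, Equiv.apply_symm_apply] at this ⊢
    exact sub_eq_zero.2 this.symm

end Pool.Agent.MP_d68894_co.H74
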